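import Pool.Agent.Helper11.PV.St

/-!
Project PV (MP_e12aa9_pr), module INF: crude bound of the total influence.
-/

set_option autoImplicit false

namespace Pool.Agent.Helper12.PV

open Finset Pool.Agent.Helper82.CN Pool.Agent.Helper11.PV

/-- the probability that one bit is `false` -/
private theorem inf_bit (p : ℝ) {ι : Type} [Fintype ι] [DecidableEq ι] (e : ι) :
    EE p (fun ω : ι → Bool => if ω e = false then (1 : ℝ) else 0) = 1 - p := by
  have h1 := EE_marg p (fun _ : Unit => e) (fun _ _ _ => rfl)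
    (fun η : Unit → Bool => if η () = false then (1 : ℝ) else 0)
  rw [h1]
  unfold EE
  have h2 : ∑ ω : Unit → Bool, (∏ i, bw p (ω i)) * (if ω () = false then (1 : ℝ) else 0) =
      ∑ b : Bool, bw p b * (if b = false then (1 : ℝ) else 0) := by
    refine Fintype.sum_equiv (Equiv.funUnique Unit Bool) _ _ fun ω => ?_
    simp [Equiv.funUnique]
  rw [h2]
  simp [bw]

/-- a pivotal difference does not depend on its own bit -/
private theorem inf_indep (p : ℝ) {ι : Type} [Fintype ι] [DecidableEq ι] (F : (ι → Bool) → ℝ)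
    (e : ι) : EE p (fun ω => if ω e = false then DD F e ω else 0) = (1 - p) * EE p (DD F e) := by
  have h1 := EE_indep p (fun i => i = e) (fun ω => if ω e = false then (1 : ℝ) else 0) (DD F e)
    (fun ω ω' h => by
      have h2 := h e rfl
      simp only [h2])
    (fun ω ω' h => by
      have h2 : ∀ b : Bool, Function.update ω e b = Function.update ω' e b := by
        intro b
        funext i
        by_cases hi : i = e
        · subst hi
          simp
        · rw [Function.update_of_ne hi, Function.update_of_ne hi]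
          exact h i hi
      unfold DD
      rw [h2 true, h2 false])
  rw [inf_bit] at h1
  rw [← h1]
  congr 1
  funext ω
  split_ifs <;> simp

/-- numerical estimate -/
private theorem inf_num (n a : ℕ) (ρ : ℝ) (hρ : 0 ≤ ρ) (hn : 1 ≤ n)
    (h : (n : ℝ) ^ 4 * ρ ^ a ≤ 1) :
    (n : ℝ) ^ 2 * ((n : ℝ) ^ (a + 1) * ρ ^ ((a + 1).choose 2)) ≤ n := by
  have hn1 : (1 : ℝ) ≤ n := by exact_mod_cast hn
  obtain ⟨C, hC⟩ : ∃ C, C = (a + 1).choose 2 := ⟨_, rfl⟩
  have h2C : C * 2 = a * (a + 1) := by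
    rw [hC, Nat.choose_two_right, Nat.add_sub_cancel, mul_comm (a + 1) a]
    exact Nat.div_mul_cancel (Nat.even_mul_succ_self a).two_dvd
  rw [← hC]
  have h1 : ((n : ℝ) ^ 4 * ρ ^ a) ^ (a + 1) ≤ 1 := pow_le_one₀ (by positivity) h
  have h3 : ((n : ℝ) ^ (a + 2) * ρ ^ C) ^ 2 ≤ 1 := by
    refine le_trans ?_ h1
    have e1 : ((n : ℝ) ^ (a + 2) * ρ ^ C) ^ 2 = (n : ℝ) ^ (2 * a + 4) * ρ ^ (a * (a + 1)) := by
      rw [mul_pow, ← pow_mul, ← pow_mul, h2C]
      congr 2
      ring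
    have e2 : ((n : ℝ) ^ 4 * ρ ^ a) ^ (a + 1) = (n : ℝ) ^ (4 * (a + 1)) * ρ ^ (a * (a + 1)) := by
      rw [mul_pow, ← pow_mul, ← pow_mul]
    rw [e1, e2]
    exact mul_le_mul_of_nonneg_right (pow_le_pow_right₀ hn1 (by omega)) (by positivity)
  have h4 : (n : ℝ) ^ (a + 2) * ρ ^ C ≤ 1 := by
    by_contra hcon
    rw [not_le] at hcon
    have := one_lt_pow₀ hcon (n := 2) (by norm_num)
    linarith
  calc (n : ℝ) ^ 2 * ((n : ℝ) ^ (a + 1) * ρ ^ C) = n * ((n : ℝ) ^ (a + 2) * ρ ^ C) := by ring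
    _ ≤ n * 1 := mul_le_mul_of_nonneg_left h4 (by positivity)
    _ = n := mul_one _

/-- module INF -/
theorem tINF (hPIV : StPIV) (hUBD : StUBD) : Pool.Agent.Helper11.PV.StINF := by
  classical
  intro p₀ p₁ h0 h01 h11
  obtain ⟨ρ, hρ⟩ : ∃ ρ, ρ = 1 - p₀ := ⟨_, rfl⟩
  have hρ0 : 0 ≤ ρ := by rw [hρ]; linarith
  have hρ1 : ρ < 1 := by rw [hρ]; linarith
  obtain ⟨c, hc⟩ : ∃ c, c = (1 - p₁) / 4 := ⟨_, rfl⟩
  have hc0 : 0 < c := by rw [hc]; linarith
  have ht := tendsto_pow_const_mul_const_pow_of_abs_lt_one 8 (r := ρ)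
    (by rw [abs_of_nonneg hρ0]; exact hρ1)
  obtain ⟨a₀, ha₀⟩ := Filter.eventually_atTop.mp (ht.eventually (gt_mem_nhds one_pos))
  refine ⟨⌈(2 / c) ^ 4⌉₊ + a₀ ^ 2 + 4, ?_⟩
  intro n l p hn hp0 hp1
  have hn4 : 4 ≤ n := by omega
  have hna : a₀ ^ 2 ≤ n := by omega
  have hnc : (2 / c) ^ 4 ≤ n := by
    have h1 : ⌈(2 / c) ^ 4⌉₊ ≤ n := by omega
    exact (Nat.le_ceil _).trans (by exact_mod_cast h1)
  have hp0' : 0 ≤ p := by linarith
  have hp1' : p ≤ 1 := by linarith
  have hnR : (4 : ℝ) ≤ n := by exact_mod_cast hn4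
  obtain ⟨a, ha⟩ : ∃ a, a = ⌈Real.sqrt n⌉₊ := ⟨_, rfl⟩
  have ha1 : Real.sqrt n ≤ a := by rw [ha]; exact Nat.le_ceil _
  have ha2 : (a : ℝ) ≤ Real.sqrt n + 1 := by
    rw [ha]
    exact (Nat.ceil_lt_add_one (Real.sqrt_nonneg _)).le
  have haa : a₀ ≤ a := by
    have h1 : (a₀ : ℝ) ≤ Real.sqrt n := by
      refine Real.le_sqrt_of_sq_le ?_
      exact_mod_cast hna
    exact_mod_cast h1.trans ha1
  have hE : (n : ℝ) ^ 4 * ρ ^ a ≤ 1 := by
    have h1 := (ha₀ a haa).le
    have h2 : (n : ℝ) ≤ (a : ℝ) ^ 2 := by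
      have h3 := pow_le_pow_left₀ (Real.sqrt_nonneg _) ha1 2
      rwa [Real.sq_sqrt (by positivity)] at h3
    have h3 : (n : ℝ) ^ 4 ≤ (a : ℝ) ^ 8 := by
      have h4 := pow_le_pow_left₀ (by positivity) h2 4
      rw [← pow_mul] at h4
      exact h4
    exact (mul_le_mul_of_nonneg_right h3 (by positivity)).trans h1
  -- the sum over the absent edges
  have hII : (1 - p) * II l n p =
      EE p (fun ω : Sym2 (Fin n) → Bool => ∑ e : Sym2 (Fin n),
        (if ω e = false then DD (PH l) e ω else 0)) := by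
    rw [EE_sum]
    unfold II
    rw [Finset.mul_sum]
    exact Finset.sum_congr rfl fun e _ => (inf_indep p (PH l) e).symm
  obtain ⟨-, hD, hpiv⟩ := hPIV (Fin n) l
  have hcard : (Fintype.card (Sym2 (Fin n)) : ℝ) ≤ (n : ℝ) ^ 2 := by
    have h1 : Fintype.card (Sym2 (Fin n)) ≤ n ^ 2 := by
      rw [Sym2.card, Fintype.card_fin, Nat.choose_two_right, Nat.add_sub_cancel]
      refine Nat.div_le_of_le_mul ?_
      nlinarith
    exact_mod_cast h1
  have hS : ∀ ω : Sym2 (Fin n) → Bool, ∑ e : Sym2 (Fin n),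
      (if ω e = false then DD (PH l) e ω else 0) ≤ (n : ℝ) * a + (n : ℝ) ^ 2 *
        @ite ℝ (∃ S : Finset (Fin n), S.card = a + 1 ∧
          ∀ u ∈ S, ∀ v ∈ S, u ≠ v → ω s(u, v) = false) (Classical.propDecidable _) 1 0 := by
    intro ω
    by_cases hex : ∃ S : Finset (Fin n), S.card = a + 1 ∧
        ∀ u ∈ S, ∀ v ∈ S, u ≠ v → ω s(u, v) = false
    · rw [if_pos hex, mul_one]
      have h1 : ∑ e : Sym2 (Fin n), (if ω e = false then DD (PH l) e ω else 0) ≤
          ∑ e : Sym2 (Fin n), (1 : ℝ) := by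
        refine Finset.sum_le_sum fun e _ => ?_
        split_ifs
        · rcases hD e ω with h | h <;> rw [h]
          norm_num
        · norm_num
      rw [Finset.sum_const, Finset.card_univ, nsmul_eq_mul, mul_one] at h1
      have h2 : (0 : ℝ) ≤ n * a := by positivity
      linarith
    · rw [if_neg hex, mul_zero, add_zero]
      have h1 := hpiv ω a (by
        intro S hS
        by_contra hcon
        rw [not_le] at hcon
        obtain ⟨T, hT, hTc⟩ := Finset.exists_subset_card_eq (n := a + 1) hcon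
        exact hex ⟨T, hTc, fun u hu v hv huv => hS u (hT hu) v (hT hv) huv⟩)
      rw [Fintype.card_fin] at h1
      exact h1
  have hmean := EE_mono hp0' hp1' hS
  rw [← hII, EE_add, EE_const, EE_mul_left] at hmean
  have hU := hUBD p n (a + 1) false hp0' hp1'
  have hbw : bw p false = 1 - p := by simp [bw]
  rw [hbw] at hU
  have hU2 : (n : ℝ) ^ 2 * PP p (fun ω : Sym2 (Fin n) → Bool => ∃ S : Finset (Fin n),
      S.card = a + 1 ∧ ∀ u ∈ S, ∀ v ∈ S, u ≠ v → ω s(u, v) = false) ≤ n := by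
    refine le_trans (mul_le_mul_of_nonneg_left hU (by positivity)) ?_
    refine le_trans ?_ (inf_num n a ρ hρ0 (by omega) hE)
    have h1 : (1 - p) ^ ((a + 1).choose 2) ≤ ρ ^ ((a + 1).choose 2) :=
      pow_le_pow_left₀ (by linarith) (by rw [hρ]; linarith) _
    gcongr
  unfold PP at hU2
  have hfin : (1 - p) * II l n p ≤ n * a + n := by
    exact hmean.trans (add_le_add le_rfl hU2)
  -- numbers
  have hs2 : (2 : ℝ) ≤ Real.sqrt n := by
    refine Real.le_sqrt_of_sq_le ?_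
    linarith
  have hq : 2 / c ≤ (n : ℝ) ^ ((1 : ℝ) / 4) := by
    have h1 := Real.rpow_le_rpow (by positivity) hnc (by norm_num : (0 : ℝ) ≤ 1 / 4)
    have h2 : ((2 / c) ^ 4 : ℝ) ^ ((1 : ℝ) / 4) = 2 / c := by
      rw [← Real.rpow_natCast, ← Real.rpow_mul (by positivity)]
      norm_num
    rwa [h2] at h1
  have hpow : (n : ℝ) ^ ((7 : ℝ) / 4) = n * (Real.sqrt n * (n : ℝ) ^ ((1 : ℝ) / 4)) := by
    rw [Real.sqrt_eq_rpow, ← Real.rpow_add (by positivity)]
    nth_rewrite 2 [← Real.rpow_one (n : ℝ)]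
    rw [← Real.rpow_add (by positivity)]
    norm_num
  have hI0 : 0 ≤ II l n p := by
    unfold II
    refine Finset.sum_nonneg fun e _ => EE_nonneg hp0' hp1' fun ω => ?_
    rcases hD e ω with h | h <;> rw [h]
    norm_num
  have h1 : 4 * c * II l n p ≤ (1 - p) * II l n p := by
    refine mul_le_mul_of_nonneg_right ?_ hI0
    rw [hc]
    linarith
  have h2 : 4 * c * II l n p ≤ n * (2 * Real.sqrt n) := by
    have h3 : (n : ℝ) * a + n ≤ n * (2 * Real.sqrt n) := by nlinarith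
    linarith
  have h3 : (n : ℝ) * (2 * Real.sqrt n) ≤ c * (n : ℝ) ^ ((7 : ℝ) / 4) := by
    rw [hpow]
    have h4 : 2 ≤ c * (n : ℝ) ^ ((1 : ℝ) / 4) := by
      rw [div_le_iff₀ hc0] at hq
      linarith
    have h5 : 0 ≤ (n : ℝ) * Real.sqrt n := by positivity
    nlinarith
  have h4 : c * (4 * II l n p) ≤ c * (n : ℝ) ^ ((7 : ℝ) / 4) := by linarith
  have h5 := le_of_mul_le_mul_left h4 hc0
  linarith

end Pool.Agent.Helper12.PV
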